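import Pool.Agent.H17Z.Box.Defs
import Pool.Agent.H17Z.Box.Main

set_option autoImplicit false

namespace Pool.Agent.Results.MP_ccca26_co.CircleNotMultiplicative

open Pool.Agent.H17Z.Box

/-- There is a finite simple graph `K` whose box complex `Hom(K₂, K)` is `ℤ₂`-homotopy equivalent
to the circle with the antipodal action, and which is not multiplicative.
`K` is `K₃ × H`, `H` the Groetzsch graph, together with vertices `w_ab` (`a ≠ b` in `K₃`), where
`w_ab` is joined to `w_ba` and to all vertices `(a, h)`. It is triangle free and 3-colourable. -/
theorem result : ∃ (V : Type) (_ : Fintype V) (K : SimpleGraph V),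
    Z2HomotopyEquivalent (boxSwap K) (fun w : Metric.sphere (0 : ℂ) 1 => -w) ∧
      ¬ Multiplicative K :=
  main

end Pool.Agent.Results.MP_ccca26_co.CircleNotMultiplicative
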